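import Pool.Agent.H484Z.Lab.Main

set_option autoImplicit false

namespace Pool.Agent.Results.MP_974ce4_co.BTwinWidth

open Pool.Agent.H484Z.Lab

/-- Q2, negated form: for every constant `c` there is `k ≥ 1` such that the class of graphs of
twin-width at most `k` has no adjacency labeling scheme of size `(c + o(1)) log₂ n`. -/
theorem result : ∀ c : ℝ, ∃ k : ℕ, 1 ≤ k ∧
    ¬ HasLogScheme (fun _ G => TwinWidthLE G k) c := by
  intro c
  obtain ⟨K, hK⟩ := exists_nat_gt (2 * c)
  refine ⟨3 * (K + 1), by omega, no_log_scheme c (K + 1) (by omega) ?_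
    (fun h x => tgF_tww (K + 1) h x)⟩
  push_cast
  linarith

end Pool.Agent.Results.MP_974ce4_co.BTwinWidth
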